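import Pool.Agent.Helper392_GT.Density2

namespace Pool.Agent.Results.MP_446dfa_ag.AsymptoticDensity

open Pool.Agent.Helper392_GT

/-- Let `L` be the free Lie algebra on `x, y` over a field of characteristic zero, graded by
weight. Let `𝔤 ⊆ L` be a linear subspace of `𝔤𝔯𝔱₁` (antisymmetry, hexagon, pentagon) which is
closed under the Ihara bracket `[σ, τ] + D_σ τ - D_τ σ`, where `D_σ` is the derivation with
`x ↦ 0`, `y ↦ [y, σ]`, and which contains, for each odd `n ≥ 3`, an element of weight `n` congruent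
to `ad(x)^(n-1) y` modulo depth two. Let `d_n ≤ e_n` be the dimensions of the images of the weight
`n` parts of `𝔤` and of `𝔤𝔯𝔱₁` in `L / [L', L'']`. Then
`C(n - 112, 3) ≤ 72 d_n` and `72 e_n ≤ C(n + 70, 3)` for all `n` (so both are `n³/432 + O(n²)`). -/
theorem result {k : Type*} [Field k] [CharZero k] (𝔤 : Submodule k (F2 k)) (hgrt : 𝔤 ≤ grtSub k)
    (hbracket : IharaClosed 𝔤) (hsoule : HasSoule 𝔤) (n : ℕ) :
    Module.Finite k (wt k n) ∧ (n - 112).choose 3 ≤ 72 * dimN 𝔤 n ∧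
      dimN 𝔤 n ≤ dimN (grtSub k) n ∧ 72 * dimN (grtSub k) n ≤ (n + 70).choose 3 :=
  density_all 𝔤 hgrt (fun σ hσ τ hτ D E h1 h2 h3 h4 => hbracket σ hσ τ hτ D E ⟨h1, h2⟩ ⟨h3, h4⟩)
    hsoule n

end Pool.Agent.Results.MP_446dfa_ag.AsymptoticDensity
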