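import Pool.Agent.Helper392_GT.MainD

namespace Pool.Agent.Results.MP_446dfa_ag.BoundedCodim

open Pool.Agent.Helper392_GT

/-- Let `L` be the free Lie algebra on `x, y` over a field of characteristic zero, graded by
weight. Let `𝔤 ⊆ L` be a linear subspace of `𝔤𝔯𝔱₁` (antisymmetry, hexagon, pentagon) which is
closed under the Ihara bracket `[σ, τ] + D_σ τ - D_τ σ`, where `D_σ` is the derivation with
`x ↦ 0`, `y ↦ [y, σ]`, and which contains, for each odd `n ≥ 3`, an element of weight `n` congruent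
to `ad(x)^(n-1) y` modulo depth two. Then, for all `m` and all weights `n`, there are
`∑_{r ≤ m-2, r ≡ n mod 2} r(r+1)/2` linear functionals such that each `ψ ∈ 𝔤𝔯𝔱₁` of weight `n` at
which they vanish is congruent to an element of `𝔤` of weight `n` modulo
`[L, [L, …, [L, L'']]] + [L', L'']` (with `m` outer brackets). -/
theorem result {k : Type*} [Field k] [CharZero k] (𝔤 : Submodule k (F2 k))
    (hgrt : ∀ φ ∈ 𝔤, IsGRT k φ)
    (hbracket : ∀ σ ∈ 𝔤, ∀ τ ∈ 𝔤, ∀ D E : LieDerivation k (F2 k) (F2 k),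
      D (FreeLieAlgebra.of k 0) = 0 →
      D (FreeLieAlgebra.of k 1) = ⁅(FreeLieAlgebra.of k 1 : F2 k), σ⁆ →
      E (FreeLieAlgebra.of k 0) = 0 →
      E (FreeLieAlgebra.of k 1) = ⁅(FreeLieAlgebra.of k 1 : F2 k), τ⁆ →
      ⁅σ, τ⁆ + D τ - E σ ∈ 𝔤)
    (hsoule : ∀ n, Odd n → 3 ≤ n → ∃ σ ∈ 𝔤, σ ∈ wt k n ∧ DepthGE k 2
      (σ - ((LieAlgebra.ad k (F2 k) (FreeLieAlgebra.of k 0)) ^ (n - 1)) (FreeLieAlgebra.of k 1)))
    (m n : ℕ) :
    ∃ ℓ : F2 k →ₗ[k]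
        (Fin (∑ r ∈ Finset.range (m - 1), if r % 2 = n % 2 then r * (r + 1) / 2 else 0) → k),
      ∀ ψ : F2 k, IsGRT k ψ → ψ ∈ wt k n → ℓ ψ = 0 →
        ∃ φ ∈ 𝔤, φ ∈ wt k n ∧ ψ - φ ∈
          LieSubmodule.lcs m (LieAlgebra.derivedSeries k (F2 k) 2) ⊔
            ⁅LieAlgebra.derivedSeries k (F2 k) 1, LieAlgebra.derivedSeries k (F2 k) 2⁆ :=
  bounded_codim 𝔤 hgrt hbracket hsoule n m

end Pool.Agent.Results.MP_446dfa_ag.BoundedCodim
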