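import Pool.Agent.Helper392_GT.Sym2

namespace Pool.Agent.Results.MP_446dfa_ag.HiddenSymmetry

open Pool.Agent.Helper392_GT

/-- Let `L` be the free Lie algebra on `x, y` over a field of characteristic zero and let
`ψ ∈ L''` satisfy the pentagon equation (for example `ψ ∈ 𝔤𝔯𝔱₁ ∩ L''`). Then the class of `ψ` in
`L''/[L', L'']` is the class of `(x₁ + y₁ + x₂ + y₂) q(x₁, y₁, x₂, y₂)`, where a monomial
`x₁^i y₁^j x₂^i' y₂^j'` stands for `[ad(x)^i ad(y)^j [x, y], ad(x)^i' ad(y)^j' [x, y]]`, and `q`,
seen as a function of the `3 × 3` array with zero row and column sums and with first two rows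
`(x₁, y₁, -x₁-y₁)` and `(x₂, y₂, -x₂-y₂)`, changes by the sign under all permutations of the rows
and of the columns and is invariant under transposition. -/
theorem result {k : Type*} [Field k] [CharZero k] (ψ : F2 k) (hp : Pentagon k ψ)
    (hψ : ψ ∈ LieAlgebra.derivedSeries k (F2 k) 2) :
    ∃ q : MvPolynomial (Fin 4) k,
      ψ - symbolMap k (genArray k 2 2 * q) ∈
        ⁅LieAlgebra.derivedSeries k (F2 k) 1, LieAlgebra.derivedSeries k (F2 k) 2⁆ ∧
      (∀ σ τ : Equiv.Perm (Fin 3), atArray q ((genArray k).submatrix σ τ) =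
        (Equiv.Perm.sign σ * Equiv.Perm.sign τ) • q) ∧
      atArray q (genArray k).transpose = q :=
  hidden_symmetry hp hψ

end Pool.Agent.Results.MP_446dfa_ag.HiddenSymmetry
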