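import Pool.Agent.Helper392_GT.PowerSum

namespace Pool.Agent.Results.MP_446dfa_ag.PowerSumAction

open Pool.Agent.Helper392_GT

/-- Let `L` be the free Lie algebra on `x, y` over a field of characteristic zero, let `σ ∈ L`
satisfy the pentagon equation and be congruent to `γ ad(x)^(n-1) y` modulo depth two, where
`n ≥ 3` is odd, and let `φ ∈ L''` have the symbol `p(x₁, y₁, x₂, y₂)`, that is, be congruent modulo
`[L', L'']` to the image of `p` under
`x₁^i y₁^j x₂^i' y₂^j' ↦ [ad(x)^i ad(y)^j [x, y], ad(x)^i' ad(y)^j' [x, y]]`. Then the Ihara bracket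
`[σ, φ] + D_σ φ - D_φ σ` has the symbol `-(γ/n) (∑ m_{ij}^n) p`, where the `m_{ij}` are the nine
entries of the `3 × 3` array with zero row and column sums and with first two rows
`(x₁, y₁, -x₁-y₁)` and `(x₂, y₂, -x₂-y₂)`. -/
theorem result {k : Type*} [Field k] [CharZero k] (n : ℕ) (hn : Odd n) (h3 : 3 ≤ n) (γ : k)
    (σ φ : F2 k) (hσ : Pentagon k σ)
    (hd : DepthGE k 2 (σ - γ •
      ((LieAlgebra.ad k (F2 k) (FreeLieAlgebra.of k 0)) ^ (n - 1)) (FreeLieAlgebra.of k 1)))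
    (hφ : φ ∈ LieAlgebra.derivedSeries k (F2 k) 2) (p : MvPolynomial (Fin 4) k)
    (hp : φ - symbolMap k p ∈
      ⁅LieAlgebra.derivedSeries k (F2 k) 1, LieAlgebra.derivedSeries k (F2 k) 2⁆)
    (D E : LieDerivation k (F2 k) (F2 k)) (hDx : D (FreeLieAlgebra.of k 0) = 0)
    (hDy : D (FreeLieAlgebra.of k 1) = ⁅(FreeLieAlgebra.of k 1 : F2 k), σ⁆)
    (hEx : E (FreeLieAlgebra.of k 0) = 0)
    (hEy : E (FreeLieAlgebra.of k 1) = ⁅(FreeLieAlgebra.of k 1 : F2 k), φ⁆) :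
    (⁅σ, φ⁆ + D φ - E σ) - symbolMap k (-(γ / n) • ((∑ i, ∑ j, genArray k i j ^ n) * p)) ∈
      ⁅LieAlgebra.derivedSeries k (F2 k) 1, LieAlgebra.derivedSeries k (F2 k) 2⁆ := by
  have h := power_sum_action hn h3 γ hσ hd hφ hp D E hDx hDy hEx hEy
  rw [map_smul, neg_smul, sub_neg_eq_add]
  exact h

end Pool.Agent.Results.MP_446dfa_ag.PowerSumAction
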